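import Pool.Agent.H360R2.RG.Stubs
import Pool.Agent.H613R2.LG.Comb0
import Pool.Agent.H153R2.LGPsum

/-! Task COMBS: limits of the signed diagonal terms (adapted from LG.COMB1, LG.COMB2_of). -/

open Complex Filter Topology Set MeasureTheory

namespace RGap

open SG (hh nn dd dl ord NZ)
open SP (RHs ZZ mu wt Mk Par Eb PS chi qq tt)
open LG (gK gh Zs bk lk fam prs nA yp ae EE Cn QT tm sm sm0 IsQ SF SM)

namespace CombsAux

open LG.CombAux

theorem sgn_abs (s : ℕ → ℝ) (hs : IsSgn s) (m : ℕ) : |s m| = 1 := by
  rcases hs m with h | h <;> rw [h] <;> simp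

lemma tsum_splitS (hS : SGN) (P : Par) (B0 : ℕ) (r : ℝ) (F s : ℕ → ℝ) (hs : IsSgn s)
    (T A c : ℝ) (hT : 10 ≤ T) :
    ∑' n : ℕ, lk A c T n * CnS P B0 r F s T n =
      ∑ p ∈ PS P T, lk A c T p * CnS P B0 r F s T p +
      ∑ p ∈ PS P T, lk A c T (p ^ 2 : ℕ) * CnS P B0 r F s T (p ^ 2) := by
  have hinj : Set.InjOn (fun p : ℕ => p ^ 2) (PS P T) := by
    intro a _ b _ h
    exact Nat.pow_left_injective (by norm_num : 2 ≠ 0) h
  have hdis : Disjoint (PS P T) ((PS P T).image (fun p => p ^ 2)) := by
    rw [Finset.disjoint_left]
    intro a ha ha'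
    rw [Finset.mem_image] at ha'
    obtain ⟨b, hb, rfl⟩ := ha'
    exact Nat.Prime.not_prime_pow (by norm_num : 2 ≤ 2) (PS_prime P T _ ha)
  rw [tsum_eq_sum (s := PS P T ∪ (PS P T).image (fun p => p ^ 2)), Finset.sum_union hdis,
    Finset.sum_image hinj]
  intro n hn
  rw [Finset.mem_union, not_or] at hn
  by_cases hpp : IsPrimePow n
  · obtain ⟨p, k, hp, hk, rfl⟩ := (isPrimePow_nat_iff n).mp hpp
    have : p ∉ PS P T ∨ 3 ≤ k := by
      by_contra hcon
      rw [not_or, not_not] at hcon
      obtain ⟨h1, h2⟩ := hcon
      have hk2 : k = 1 ∨ k = 2 := by omega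
      rcases hk2 with h | h
      · subst h
        exact hn.1 (by simpa using h1)
      · subst h
        exact hn.2 (Finset.mem_image.mpr ⟨p, h1, rfl⟩)
    rw [(hS P B0 r F s T hs hT).2.2.2 p k hp hk this, mul_zero]
  · have : ArithmeticFunction.vonMangoldt n = 0 := by
      rw [ArithmeticFunction.vonMangoldt_eq_zero_iff]
      exact hpp
    simp [lk, this]

end CombsAux

open CombsAux LG.CombAux

theorem COMBS_of (hS : SGN) : COMBS := by
  intro P B0 hB r hr F q s hs hq A c hA hc
  constructor
  · refine (LG.COMB1 P B0 hB r hr F q hq).congr' ?_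
    filter_upwards [eventually_ge_atTop (10 : ℝ)] with T hT
    exact (hS P B0 r F s T hs hT).1.symm
  have hPSUM := LG.PSUM P A c hA hc
  obtain ⟨C, η, T0, hC, hη, hT0, h⟩ := LG.DIS P B0 hB r hr F
  obtain ⟨C1, T1, hC1, hT1, h1⟩ := LG.PSUM_abs P A c hA hc
  set a : ℝ → ℕ → ℝ := fun T p => Real.log p / Real.log T * bk A c T p * chi P T p / p with ha
  set M : ℝ → ℝ := fun T => ∑ m ∈ Finset.Icc 2 B0,
    (4 * r) * (s m * ((∑ p ∈ (PS P T).filter (fun p => Eb P T p = m), a T p) *
      (SF B0 F (QT P r T) * SM B0 F (QT P r T) m))) with hM
  have hMlim : Tendsto M atTop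
      (𝓝 (4 * r / Real.pi * (SF B0 F q * ∑ m ∈ Finset.Icc 2 B0,
        s m * (sm P A c m * SM B0 F q m)))) := by
    have e : 4 * r / Real.pi * (SF B0 F q * ∑ m ∈ Finset.Icc 2 B0,
          s m * (sm P A c m * SM B0 F q m)) =
        ∑ m ∈ Finset.Icc 2 B0, (4 * r) * (s m * ((sm P A c m / Real.pi) *
          (SF B0 F q * SM B0 F q m))) := by
      rw [Finset.mul_sum, Finset.mul_sum]
      apply Finset.sum_congr rfl
      intro m _
      ring
    rw [e]
    apply tendsto_finsetSum
    intro m _
    exact (((hPSUM m).mul
      ((SF_lim P B0 hB r F q hq).mul (SM_lim P B0 hB r F q hq m))).const_mul _).const_mul _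
  have hdiff : Tendsto (fun T : ℝ => (2 / Real.log T) *
      (∑' n : ℕ, lk A c T n * CnS P B0 r F s T n) - M T) atTop (𝓝 0) := by
    apply squeeze_zero_norm' (a := fun T : ℝ => 2 * C * r * C1 * T ^ (-η) + 2 * C * C1 *
      (Real.log T)⁻¹)
    · filter_upwards [eventually_ge_atTop T0, eventually_ge_atTop T1,
        eventually_ge_atTop (10 : ℝ)] with T hT hTT1 hT10
      obtain ⟨_, hp1, hp2, hp3⟩ := h T hT
      obtain ⟨ha1, ha2⟩ := h1 T hTT1
      obtain ⟨-, hS1, hS2, -⟩ := hS P B0 r F s T hs hT10
      have hL : 0 < Real.log T := Real.log_pos (by linarith)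
      -- main term over primes
      have hMeq : M T = ∑ p ∈ PS P T, if Eb P T p ≤ B0 then
          (4 * r) * (s (Eb P T p) * (a T p * (SF B0 F (QT P r T) *
            SM B0 F (QT P r T) (Eb P T p)))) else 0 := by
        rw [hM]
        simp only
        rw [← Finset.sum_filter]
        have hsub : (PS P T).filter (fun p => Eb P T p ≤ B0) =
            (Finset.Icc 2 B0).biUnion (fun m => (PS P T).filter (fun p => Eb P T p = m)) := by
          ext p
          simp only [Finset.mem_filter, Finset.mem_biUnion, Finset.mem_Icc]
          constructor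
          · rintro ⟨h1, h2⟩
            refine ⟨Eb P T p, ⟨?_, h2⟩, h1, rfl⟩
            unfold PS at h1
            rw [Finset.mem_filter] at h1
            exact h1.2.2
          · rintro ⟨m, ⟨h1, h2⟩, h3, rfl⟩
            exact ⟨h3, h2⟩
        rw [hsub, Finset.sum_biUnion]
        · apply Finset.sum_congr rfl
          intro m _
          rw [Finset.sum_mul, Finset.mul_sum, Finset.mul_sum]
          apply Finset.sum_congr rfl
          intro p hp
          rw [Finset.mem_filter] at hp
          rw [hp.2]
        · intro m _ m' _ hmm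
          rw [Function.onFun, Finset.disjoint_left]
          intro p hp hp'
          rw [Finset.mem_filter] at hp hp'
          exact hmm (hp.2.symm.trans hp'.2)
      rw [tsum_splitS hS P B0 r F s hs T A c hT10, mul_add, hMeq, add_sub_right_comm,
        Finset.mul_sum, ← Finset.sum_sub_distrib, Finset.mul_sum]
      refine (norm_add_le _ _).trans ?_
      apply add_le_add
      · refine (norm_sum_le _ _).trans ?_
        calc _ ≤ ∑ p ∈ PS P T, 2 * C * r * T ^ (-η) * |a T p| := by
              apply Finset.sum_le_sum
              intro p hp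
              have hpr := PS_prime P T p hp
              have hp0 : (0 : ℝ) < p := by exact_mod_cast hpr.pos
              have hsq : 0 < Real.sqrt p := Real.sqrt_pos.mpr hp0
              have hsq2 : Real.sqrt p * Real.sqrt p = p := Real.mul_self_sqrt hp0.le
              have hTη : 0 ≤ T ^ (-η) := Real.rpow_nonneg (by linarith) _
              rw [lk_prime A c T p hpr, hS1 p hp]
              split_ifs with hE
              · have e1 : 2 / Real.log T * (Real.log p * (1 / Real.sqrt p) * bk A c T p *
                    (s (Eb P T p) * Cn P B0 r F T p)) - 4 * r * (s (Eb P T p) * (a T p *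
                      (SF B0 F (QT P r T) * SM B0 F (QT P r T) (Eb P T p)))) =
                    s (Eb P T p) *
                    (2 / Real.log T * (Real.log p * (1 / Real.sqrt p) * bk A c T p) *
                    (Cn P B0 r F T p - 2 * yp P r T p *
                      (SF B0 F (QT P r T) * SM B0 F (QT P r T) (Eb P T p)))) := by
                  have e0 : 4 * r * a T p = 2 / Real.log T * (Real.log p * (1 / Real.sqrt p) *
                      bk A c T p) * (2 * yp P r T p) := by
                    simp only [ha, yp]
                    rw [show (Real.log p / Real.log T * bk A c T p * chi P T p / (p : ℝ)) =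
                      Real.log p / Real.log T * bk A c T p * chi P T p /
                        (Real.sqrt p * Real.sqrt p) by rw [hsq2]]
                    field_simp
                    ring
                  linear_combination (-(s (Eb P T p) * (SF B0 F (QT P r T) *
                    SM B0 F (QT P r T) (Eb P T p)))) * e0
                rw [e1, norm_mul, Real.norm_eq_abs, sgn_abs s hs, one_mul, norm_mul,
                  Real.norm_eq_abs, Real.norm_eq_abs]
                have e2 : |2 / Real.log T * (Real.log p * (1 / Real.sqrt p) * bk A c T p)| *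
                    (C * |yp P r T p| * T ^ (-η)) = 2 * C * r * T ^ (-η) * |a T p| := by
                  have e3 : r * |a T p| = |1 / Real.log T * (Real.log p * (1 / Real.sqrt p) *
                      bk A c T p)| * |yp P r T p| := by
                    rw [← abs_mul, ← abs_of_pos hr, ← abs_mul, abs_of_pos hr]
                    congr 1
                    simp only [ha, yp]
                    rw [show (Real.log p / Real.log T * bk A c T p * chi P T p / (p : ℝ)) =
                      Real.log p / Real.log T * bk A c T p * chi P T p /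
                        (Real.sqrt p * Real.sqrt p) by rw [hsq2]]
                    field_simp
                  have e4 : |2 / Real.log T * (Real.log p * (1 / Real.sqrt p) * bk A c T p)| =
                      2 * |1 / Real.log T * (Real.log p * (1 / Real.sqrt p) * bk A c T p)| := by
                    rw [show 2 / Real.log T * (Real.log p * (1 / Real.sqrt p) * bk A c T p) =
                      2 * (1 / Real.log T * (Real.log p * (1 / Real.sqrt p) * bk A c T p)) by ring,
                      abs_mul, abs_two]
                  rw [e4]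
                  linear_combination (-(2 * C * T ^ (-η))) * e3
                rw [← e2]
                exact mul_le_mul_of_nonneg_left (hp1 p hp hE) (abs_nonneg _)
              · rw [hp2 p hp (by omega), mul_zero, mul_zero, mul_zero, sub_zero, norm_zero]
                positivity
          _ = 2 * C * r * T ^ (-η) * ∑ p ∈ PS P T, |a T p| := by rw [Finset.mul_sum]
          _ ≤ 2 * C * r * T ^ (-η) * C1 := by
              apply mul_le_mul_of_nonneg_left ha1
              have hTη : 0 ≤ T ^ (-η) := Real.rpow_nonneg (by linarith) _
              positivity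
          _ = _ := by ring
      · refine (norm_sum_le _ _).trans ?_
        calc _ ≤ ∑ p ∈ PS P T, 2 * C * (Real.log T)⁻¹ *
              |Real.log p * bk A c T ((p ^ 2 : ℕ) : ℝ) / (p : ℝ) ^ 2| := by
              apply Finset.sum_le_sum
              intro p hp
              have hpr := PS_prime P T p hp
              have hp0 : (0 : ℝ) < p := by exact_mod_cast hpr.pos
              rw [lk_prime_sq A c T p hpr, hS2 p hp]
              have e1 : 2 / Real.log T * (Real.log p * (1 / p) * bk A c T ((p ^ 2 : ℕ) : ℝ) *
                  Cn P B0 r F T (p ^ 2)) = 2 * (Real.log T)⁻¹ * ((Real.log p *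
                    bk A c T ((p ^ 2 : ℕ) : ℝ) / (p : ℝ) ^ 2) * (p * Cn P B0 r F T (p ^ 2))) := by
                field_simp
              rw [e1, Real.norm_eq_abs, abs_mul (2 * (Real.log T)⁻¹), abs_mul (Real.log p *
                    bk A c T ((p ^ 2 : ℕ) : ℝ) / (p : ℝ) ^ 2),
                abs_of_pos (show (0 : ℝ) < 2 * (Real.log T)⁻¹ by positivity)]
              have e5 : |p * Cn P B0 r F T (p ^ 2)| ≤ C := by
                rw [abs_mul, abs_of_pos hp0]
                have := hp3 p hp
                rw [le_div_iff₀ hp0] at this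
                linarith
              calc 2 * (Real.log T)⁻¹ * (|Real.log p * bk A c T ((p ^ 2 : ℕ) : ℝ) / (p : ℝ) ^ 2| *
                    |p * Cn P B0 r F T (p ^ 2)|) ≤
                    2 * (Real.log T)⁻¹ * (|Real.log p * bk A c T ((p ^ 2 : ℕ) : ℝ) /
                      (p : ℝ) ^ 2| * C) := by gcongr
                _ = _ := by ring
          _ = 2 * C * (Real.log T)⁻¹ * ∑ p ∈ PS P T,
              |Real.log p * bk A c T ((p ^ 2 : ℕ) : ℝ) / (p : ℝ) ^ 2| := by rw [Finset.mul_sum]
          _ ≤ 2 * C * (Real.log T)⁻¹ * C1 := by gcongr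
          _ = _ := by ring
    · have h3 := (tendsto_rpow_neg_atTop hη).const_mul (2 * C * r * C1)
      have h4 := (Real.tendsto_log_atTop.inv_tendsto_atTop).const_mul (2 * C * C1)
      have h5 := h3.add h4
      simpa using h5
  have h6 := hdiff.add hMlim
  simpa using h6

end RGap
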