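import Pool.Agent.H360R2.RG.Stubs
import Pool.Agent.H880R2.LG.Mean

/-! Task MEANS: the Gaussian mean values of `|EES|²` and `|EES|² Zs` (adapted from LG.MEAN). -/

open Complex Filter Topology Set MeasureTheory

namespace RGap

open SG (hh nn dd dl ord NZ)
open SP (RHs ZZ mu wt Mk Par Eb PS chi qq tt)
open LG (gK gh Zs bk lk fam prs nA yp ae EE Cn QT tm sm sm0 IsQ SF SM)

namespace MeansAux

theorem sg_abs (P : Par) (s : ℕ → ℝ) (hs : IsSgn s) (T : ℝ) (A : Finset ℕ) :
    |sg P s T A| = 1 := by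
  unfold sg
  rw [Finset.abs_prod]
  apply Finset.prod_eq_one
  intro p _
  rcases hs (Eb P T p) with h | h <;> rw [h] <;> simp

theorem aeS_abs (P : Par) (r : ℝ) (F s : ℕ → ℝ) (hs : IsSgn s) (T : ℝ) (A : Finset ℕ) :
    |aeS P r F s T A| = |ae P r F T A| := by
  unfold aeS
  rw [abs_mul, sg_abs P s hs, one_mul]

theorem EES_norm_le (P : Par) (B0 : ℕ) (r : ℝ) (F s : ℕ → ℝ) (T t : ℝ) :
    ‖EES P B0 r F s T t‖ ≤ ∑ q ∈ prs P B0 T, |aeS P r F s T q.1 * aeS P r F s T q.2| := by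
  unfold EES
  refine (norm_sum_le _ _).trans (Finset.sum_le_sum fun q _ => ?_)
  rw [norm_mul, Complex.norm_real, Real.norm_eq_abs, mul_comm I, Complex.norm_exp_ofReal_mul_I,
    mul_one]

theorem EES_cont (P : Par) (B0 : ℕ) (r : ℝ) (F s : ℕ → ℝ) (T : ℝ) :
    Continuous (EES P B0 r F s T) := by
  unfold EES
  fun_prop

theorem CnS_le (P : Par) (B0 : ℕ) (r : ℝ) (F s : ℕ → ℝ) (T : ℝ) (n : ℕ) :
    |CnS P B0 r F s T n| ≤ (∑ q ∈ prs P B0 T, |aeS P r F s T q.1 * aeS P r F s T q.2|) ^ 2 := by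
  unfold CnS
  refine (Finset.abs_sum_le_sum_abs _ _).trans ?_
  rw [sq, Finset.sum_mul_sum]
  refine Finset.sum_le_sum fun q _ => (Finset.abs_sum_le_sum_abs _ _).trans
    (Finset.sum_le_sum fun q' _ => ?_)
  split_ifs
  · rw [abs_mul]
  · rw [abs_zero]
    positivity

end MeansAux

open MeansAux LG.MeanAux

set_option maxHeartbeats 4000000 in
theorem MEANS_proof : MEANS := by
  intro hRH P B0 hB r F s hs A c hA hc
  obtain ⟨C1, T1, hC1, hT1, hzef⟩ := LG.MeanAux.ZEF' hRH A c hA hc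
  obtain ⟨C2, hC2, hlks⟩ := LG.lk_summable A c hc
  obtain ⟨C3, T3, hC3, hT3, hfam⟩ := LG.fam_facts P B0 hB r F
  obtain ⟨T4, hT4, hev⟩ := ev_all P.κ C2 P.hκ hC2
  refine ⟨3 * C1 + c + 3, max T1 (max T3 T4), by positivity, hT1.trans (le_max_left _ _), ?_⟩
  intro T hT t0 ht1 ht2
  have hTT1 : T1 ≤ T := (le_max_left _ _).trans hT
  have hTT3 : T3 ≤ T := (le_max_left _ _).trans ((le_max_right _ _).trans hT)
  have hTT4 : T4 ≤ T := (le_max_right _ _).trans ((le_max_right _ _).trans hT)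
  obtain ⟨hL40, hL1, hsmall⟩ := hev T hTT4
  have hT10 : 10 ≤ T := hT1.trans hTT1
  have hT0 : 0 < T := by linarith
  obtain ⟨hfamA, -, hsum2', -⟩ := hfam T hTT3
  have hsum2 : ∑ q ∈ prs P B0 T, |aeS P r F s T q.1 * aeS P r F s T q.2| ≤ T ^ 2 := by
    refine le_trans (le_of_eq (Finset.sum_congr rfl fun q _ => ?_)) hsum2'
    rw [abs_mul, abs_mul, aeS_abs P r F s hs, aeS_abs P r F s hs]
  set κ := P.κ with hκ
  set D := dd κ T with hDdef
  have hD : 0 < D := Real.rpow_pos_of_pos hT0 _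
  set L := Real.log T with hLdef
  set Se : ℝ := ∑ q ∈ prs P B0 T, |aeS P r F s T q.1 * aeS P r F s T q.2| with hSe
  have hSe0 : 0 ≤ Se := Finset.sum_nonneg fun _ _ => abs_nonneg _
  have hSeM : Se ^ 2 ≤ T ^ 4 := by
    calc Se ^ 2 ≤ (T ^ 2) ^ 2 := pow_le_pow_left₀ hSe0 hsum2 2
      _ = T ^ 4 := by ring
  set G : ℝ → ℝ := fun t => ‖EES P B0 r F s T t‖ ^ 2 with hG
  have hGcont : Continuous G := ((EES_cont P B0 r F s T).norm).pow 2
  have hG0 : ∀ t, 0 ≤ G t := fun t => by rw [hG]; positivity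
  have hGM : ∀ t, G t ≤ T ^ 4 := fun t =>
    (pow_le_pow_left₀ (norm_nonneg _) (EES_norm_le P B0 r F s T t) 2).trans hSeM
  have hlk0 : lk A c T 0 = 0 := by
    unfold lk
    simp
  obtain ⟨hs1, hs2⟩ := hlks T hT10
  have hD2 : D ^ 2 = T ^ (2 - κ) := by
    rw [hDdef]
    unfold dd
    rw [← Real.rpow_natCast, ← Real.rpow_mul hT0.le]
    congr 1
    push_cast
    ring
  have hTκ : T ^ κ * D ^ 2 = T ^ 2 := by
    rw [hD2, ← Real.rpow_add hT0]
    have : κ + (2 - κ) = ((2 : ℕ) : ℝ) := by push_cast; ring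
    rw [this, Real.rpow_natCast]
  have hR : (T / 20) ^ 2 / (4 * D ^ 2) = T ^ κ / 1600 := by
    rw [div_pow, ← hTκ]
    field_simp
    norm_num
  have hκpos : 0 ≤ T ^ κ := Real.rpow_nonneg hT0.le _
  set X : ℝ := T ^ (1 - κ) with hX
  have hκ1 : κ < 1 / 2 := P.hκ1
  have hX1 : 1 ≤ X := Real.one_le_rpow (by linarith) (by linarith)
  have hXD : D ^ 2 / (8 * X ^ 2) = T ^ κ / 8 := by
    have h1 : X ^ 2 * T ^ κ = D ^ 2 := by
      rw [hD2, hX, ← Real.rpow_natCast, ← Real.rpow_mul hT0.le, ← Real.rpow_add hT0]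
      congr 1
      push_cast
      ring
    rw [← h1]
    have : X ≠ 0 := by positivity
    field_simp
  have hmain := core G (Zs A c T) (CnS P B0 r F s T) (lk A c T) t0 D L (T + 2 * L) (2 * T - 2 * L)
    (T ^ 4) C1 c (C2 * Real.exp (L ^ 4)) (7 * D * T ^ 4 * Real.exp (-(T ^ κ / 1600)))
    hGcont hG0 hGM (Zs_cont A c T (by linarith)) (by linarith) hD hL1 hlk0 hs1 hs2
    (fun n => (CnS_le P B0 r F s T n).trans hSeM)
    (by
      intro n hn
      have hgmv := LG.GMV (prs P B0 T) (fun q => aeS P r F s T q.1 * aeS P r F s T q.2)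
        (fun q => nA q.2) (fun q => nA q.1) D t0 X n hD hX1
        (fun i hi => by
          have h1 := (Finset.mem_filter.1 hi).1
          exact (hfamA _ (Finset.mem_product.1 h1).2).1)
        (fun i hi => by
          have h1 := (Finset.mem_filter.1 hi).1
          exact (hfamA _ (Finset.mem_product.1 h1).1).1)
        (fun i hi j hj => by
          have h1 := (Finset.mem_product.1 (Finset.mem_filter.1 hi).1).2
          have h2 := (Finset.mem_product.1 (Finset.mem_filter.1 hj).1).1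
          have h3 := (hfamA _ h1).2.1
          have h4 := (hfamA _ h2).2.1
          calc ((nA i.2 : ℕ) : ℝ) * ((nA j.1 : ℕ) : ℝ) ≤ T ^ ((1 - κ) / 2) * T ^ ((1 - κ) / 2) := by
                gcongr
            _ = X := by
                rw [← Real.rpow_add hT0, hX]
                congr 1
                ring)
        hn
      rw [hXD] at hgmv
      set f : ℝ → ℂ := fun t => ((wt t0 D t * G t : ℝ) : ℂ) *
        cexp (-(I * ((t * Real.log n : ℝ) : ℂ))) with hf
      have hfc : Continuous f := by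
        have := wt_cont t0 D
        rw [hf]
        fun_prop
      have hfb : ∀ t, ‖f t‖ ≤ T ^ 4 * wt t0 D t := by
        intro t
        rw [hf]
        simp only
        rw [norm_mul, norm_osc, mul_one, Complex.norm_real, Real.norm_eq_abs,
          abs_of_nonneg (mul_nonneg (wt_pos t0 D t).le (hG0 t)), mul_comm]
        exact mul_le_mul_of_nonneg_right (hGM t) (wt_pos t0 D t).le
      have htail := tail_int f t0 D (T + 2 * L) (2 * T - 2 * L) (T / 20) (T ^ 4) hD
        (by positivity) (by linarith) (by linarith) (by linarith) hfc (by positivity) hfb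
      rw [hR] at htail
      have hgmv' : ‖(∫ t : ℝ, f t) - ((Real.sqrt (2 * Real.pi) * D * CnS P B0 r F s T n : ℝ) : ℂ)‖ ≤
          Real.sqrt (2 * Real.pi) * D * Se ^ 2 * Real.exp (-(T ^ κ / 8)) := by
        have e1 : (∫ t : ℝ, f t) = ∫ t : ℝ, (wt t0 D t : ℂ) * ((‖∑ i ∈ prs P B0 T,
            ((aeS P r F s T i.1 * aeS P r F s T i.2 : ℝ) : ℂ) *
            cexp (I * ((t * (Real.log (nA i.2) - Real.log (nA i.1)) : ℝ) : ℂ))‖ ^ 2 : ℝ) : ℂ) *
            cexp (-(I * ((t * Real.log n : ℝ) : ℂ))) := by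
          congr 1
          funext t
          rw [hf]
          simp only
          rw [Complex.ofReal_mul]
          rfl
        rw [e1]
        exact hgmv
      have hsq : Real.sqrt (2 * Real.pi) ≤ 3 := by
        rw [Real.sqrt_le_left (by norm_num)]
        have := Real.pi_lt_d2
        linarith
      have hexp : Real.exp (-(T ^ κ / 8)) ≤ Real.exp (-(T ^ κ / 1600)) := by
        apply Real.exp_le_exp.2
        linarith
      have hb1 : Real.sqrt (2 * Real.pi) * D * Se ^ 2 * Real.exp (-(T ^ κ / 8)) ≤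
          3 * D * T ^ 4 * Real.exp (-(T ^ κ / 1600)) := by gcongr
      calc ‖(∫ t in (T + 2 * L)..(2 * T - 2 * L), f t) -
            ((Real.sqrt (2 * Real.pi) * D * CnS P B0 r F s T n : ℝ) : ℂ)‖
          = ‖((∫ t in (T + 2 * L)..(2 * T - 2 * L), f t) - ∫ t : ℝ, f t) +
            ((∫ t : ℝ, f t) - ((Real.sqrt (2 * Real.pi) * D * CnS P B0 r F s T n : ℝ) : ℂ))‖ := by
            congr 1
            ring
        _ ≤ T ^ 4 * (4 * D) * Real.exp (-(T ^ κ / 1600)) +
            3 * D * T ^ 4 * Real.exp (-(T ^ κ / 1600)) :=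
            (norm_add_le _ _).trans (add_le_add htail (hgmv'.trans hb1))
        _ = 7 * D * T ^ 4 * Real.exp (-(T ^ κ / 1600)) := by ring)
    (fun t ht1 ht2 => hzef T hTT1 t (by linarith) (by linarith))
    hc.le hC1.le
    (by
      rw [le_div_iff₀ (by linarith)]
      calc 7 * D * T ^ 4 * Real.exp (-(T ^ κ / 1600)) * (1 + C2 * Real.exp (L ^ 4)) * L
          = D * (7 * T ^ 4 * Real.exp (-(T ^ κ / 1600)) * (1 + C2 * Real.exp (L ^ 4)) * L) := by
            ring
        _ ≤ D * 1 := by gcongr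
        _ = D := mul_one D)
  obtain ⟨hm1, hm2⟩ := hmain
  have hL0 : 0 < L := by linarith
  constructor
  · refine hm1.trans ?_
    have h1 : D / L * 1 ≤ D / L * ((3 * C1 + c + 3) * (1 + |CnS P B0 r F s T 1|)) := by
      apply mul_le_mul_of_nonneg_left _ (by positivity)
      have : 0 ≤ |CnS P B0 r F s T 1| := abs_nonneg _
      nlinarith
    calc D / L = D / L * 1 := (mul_one _).symm
      _ ≤ D / L * ((3 * C1 + c + 3) * (1 + |CnS P B0 r F s T 1|)) := h1
      _ = (3 * C1 + c + 3) * D / L * (1 + |CnS P B0 r F s T 1|) := by ring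
  · refine hm2.trans (le_of_eq ?_)
    ring

end RGap
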